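import Pool.Agent.N893.TB.Stm

/-!
# TB/WSUM: sums with periodic weights and a monotone factor (helper946)
-/

set_option autoImplicit false

namespace Pool.Agent.N946.TB

open Pool.Agent.N893.TB Finset

lemma abel_anti {l h : ℕ → ℝ} {C : ℝ} (hl : ∀ n, l (n + 1) ≤ l n) (hl0 : ∀ n, 0 ≤ l n) (N : ℕ)
    (hh : ∀ n ≤ N, |∑ k ∈ Finset.range n, h k| ≤ C) :
    |∑ k ∈ Finset.range N, l k * h k| ≤ C * l 0 := by
  have e : ∀ n, ∑ k ∈ Finset.range n, l k * h k = l n * (∑ k ∈ Finset.range n, h k) +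
      ∑ k ∈ Finset.range n, (l k - l (k + 1)) * ∑ i ∈ Finset.range (k + 1), h i := by
    intro n
    induction n with
    | zero => simp
    | succ n ih =>
      rw [Finset.sum_range_succ, ih, Finset.sum_range_succ (fun k => (l k - l (k + 1)) * _),
        Finset.sum_range_succ h]
      ring
  rw [e N]
  have h1 : |l N * ∑ k ∈ Finset.range N, h k| ≤ l N * C := by
    rw [abs_mul, abs_of_nonneg (hl0 N)]
    exact mul_le_mul_of_nonneg_left (hh N le_rfl) (hl0 N)
  have h2 : |∑ k ∈ Finset.range N, (l k - l (k + 1)) * ∑ i ∈ Finset.range (k + 1), h i| ≤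
      ∑ k ∈ Finset.range N, (l k - l (k + 1)) * C := by
    refine (Finset.abs_sum_le_sum_abs _ _).trans (Finset.sum_le_sum fun k hk => ?_)
    rw [Finset.mem_range] at hk
    rw [abs_mul, abs_of_nonneg (by linarith [hl k])]
    exact mul_le_mul_of_nonneg_left (hh _ (by omega)) (by linarith [hl k])
  rw [← Finset.sum_mul, Finset.sum_range_sub'] at h2
  calc _ ≤ _ := abs_add_le _ _
    _ ≤ l N * C + (l 0 - l N) * C := add_le_add h1 h2
    _ = C * l 0 := by ring

theorem main : tWSUM := by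
  intro J e w g hJ hw hg hg0 he
  have hper : Function.Periodic w J := hw
  choose Cr hCr using fun r : ℕ => he J r hJ
  set B : ℝ := ∑ r ∈ range J, |w r| * |Cr r| with hB
  have hB0 : 0 ≤ B := sum_nonneg fun r _ => by positivity
  have hwe : ∀ k, w k * e k = ∑ r ∈ range J, w r * (if k % J = r then e k else 0) := by
    intro k
    rw [sum_eq_single_of_mem (k % J) (mem_range.2 (Nat.mod_lt _ hJ))]
    · rw [if_pos rfl, hper.map_mod_nat]
    · intro r _ hne
      rw [if_neg (Ne.symm hne), mul_zero]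
  have hpart : ∀ K : ℕ, |∑ k ∈ range K, w k * e k| ≤ B * (K : ℝ) ^ (3 / 4 : ℝ) := by
    intro K
    simp_rw [hwe]
    rw [sum_comm]
    refine (abs_sum_le_sum_abs _ _).trans ?_
    rw [hB, sum_mul]
    refine sum_le_sum fun r _ => ?_
    rw [← mul_sum, abs_mul, mul_assoc]
    refine mul_le_mul_of_nonneg_left ?_ (abs_nonneg _)
    exact (hCr r K).trans (mul_le_mul_of_nonneg_right (le_abs_self _) (by positivity))
  refine ⟨B * g 0, fun K => ?_⟩
  have h1 := abel_anti (l := g) (h := fun k => w k * e k) (C := B * (K : ℝ) ^ (3 / 4 : ℝ)) hg hg0 K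
    (fun n hn => (hpart n).trans (mul_le_mul_of_nonneg_left
      (Real.rpow_le_rpow (Nat.cast_nonneg _) (Nat.cast_le.2 hn) (by norm_num)) hB0))
  calc |∑ k ∈ range K, g k * (w k * e k)| ≤ B * (K : ℝ) ^ (3 / 4 : ℝ) * g 0 := h1
    _ = B * g 0 * (K : ℝ) ^ (3 / 4 : ℝ) := by ring

end Pool.Agent.N946.TB
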